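import Mathlib
import Pool.Agent.Lib.MP_294a04_nt.Defs
import Pool.Agent.Lib.MP_294a04_nt.Main

set_option autoImplicit false

namespace Pool.Agent.Results.MP_294a04_nt.BadUniformLittlewood

open Pool.Agent.MP_294a04_nt

/-- Badly approximable numbers exist, and for every badly approximable number `ζ` the
badly approximable numbers `ξ` with `D(ξ, ζ) > 0` are dense in the real line. In particular
there are badly approximable `ξ` and `ζ` with `D(ξ, ζ) > 0`. -/
theorem result :
    (∃ ζ : ℝ, BadlyApproximable ζ) ∧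
      ∀ ζ : ℝ, BadlyApproximable ζ → ∀ a b : ℝ, a < b →
        ∃ ξ : ℝ, a < ξ ∧ ξ < b ∧ BadlyApproximable ξ ∧ 0 < uniformD ξ ζ :=
  ⟨⟨Real.sqrt 2, badlyApproximable_sqrt_two⟩, fun ζ hζ a b hab => main ζ hζ a b hab⟩

end Pool.Agent.Results.MP_294a04_nt.BadUniformLittlewood
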